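import Pool.Agent.N929.EZ.Stm2
import Pool.Agent.N278.EZ.Quo

/-!
# EZ/LOG: differences of logarithms
-/

set_option autoImplicit false

namespace Pool.Agent.N507.EZ

open Finset
open Pool.Agent.N929.EZ Pool.Agent.N278.EZ

theorem Df_const {s : ℕ} (hs : 1 ≤ s) (c : ℝ) (n : ℕ) : Df s (fun _ => c) n = 0 := by
  obtain ⟨t, rfl⟩ : ∃ t, s = t + 1 := ⟨s - 1, by omega⟩
  rw [Df_succ]
  exact sub_self _

theorem Df_sub (s : ℕ) (f g : ℕ → ℝ) (n : ℕ) :
    Df s (fun j => f j - g j) n = Df s f n - Df s g n := by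
  unfold Df
  rw [← Finset.sum_sub_distrib]
  exact Finset.sum_congr rfl fun i _ => by ring

theorem Df_add (s : ℕ) (f g : ℕ → ℝ) (n : ℕ) :
    Df s (fun j => f j + g j) n = Df s f n + Df s g n := by
  unfold Df
  rw [← Finset.sum_add_distrib]
  exact Finset.sum_congr rfl fun i _ => by ring

theorem Df_mul_left (s : ℕ) (c : ℝ) (f : ℕ → ℝ) (n : ℕ) :
    Df s (fun j => c * f j) n = c * Df s f n := by
  unfold Df
  rw [Finset.mul_sum]
  exact Finset.sum_congr rfl fun i _ => by ring

/-- LOG -/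
theorem log_diff : S_LOG := by
  intro r hr B hB
  obtain ⟨B', hB'⟩ : ∃ B' : ℝ, B' = max B 1 := ⟨_, rfl⟩
  have hB1 : 1 ≤ B' := by rw [hB']; exact le_max_right _ _
  have hBB : B ≤ B' := by rw [hB']; exact le_max_left _ _
  have hB0 : 0 < B' := by linarith
  obtain ⟨C, hC, H⟩ := quo r B' hB0
  refine ⟨C, hC, ?_⟩
  intro f n ε h0 h1 hpos hcomp hd
  have hfn : 0 < f n := by
    have := hpos 0 (Nat.zero_le _)
    rwa [add_zero] at this
  obtain ⟨G, hG⟩ : ∃ G : ℕ → ℝ, G = fun j => (f n)⁻¹ * f j := ⟨_, rfl⟩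
  have hGn : G n = 1 := by rw [hG]; exact inv_mul_cancel₀ hfn.ne'
  have hGpos : ∀ j, j ≤ r → 0 < G (n + j) := by
    intro j hj
    rw [hG]
    exact mul_pos (inv_pos.2 hfn) (hpos j hj)
  have hGlow : ∀ j, j ≤ r → 1 ≤ B' * G (n + j) := by
    intro j hj
    rw [hG]
    have h2 := hcomp j hj
    have h3 : B' * ((f n)⁻¹ * f (n + j)) = (B' * f (n + j)) / f n := by ring
    simp only
    rw [h3, le_div_iff₀ hfn, one_mul]
    exact h2.trans (mul_le_mul_of_nonneg_right hBB (hpos j hj).le)
  have hGd : ∀ s j, s + j ≤ r → |Df s G (n + j)| ≤ B' * ε ^ s := by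
    intro s j hsj
    rw [hG, Df_mul_left, abs_mul, abs_of_pos (inv_pos.2 hfn)]
    have h2 := hd s j hsj
    calc (f n)⁻¹ * |Df s f (n + j)| ≤ (f n)⁻¹ * (B * ε ^ s * f n) :=
          mul_le_mul_of_nonneg_left h2 (inv_pos.2 hfn).le
      _ = B * ε ^ s := by field_simp
      _ ≤ B' * ε ^ s := mul_le_mul_of_nonneg_right hBB (by positivity)
  have hpt : ∀ t ∈ Set.Icc (0 : ℝ) 1, ∀ j, j ≤ r → 0 < 1 + t * (G (n + j) - 1) := by
    intro t ht j hj
    have h2 := hGpos j hj
    have h3 : 1 + t * (G (n + j) - 1) = (1 - t) + t * G (n + j) := by ring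
    rw [h3]
    rcases eq_or_lt_of_le ht.1 with h4 | h4
    · rw [← h4]; simp
    · have h5 : 0 < t * G (n + j) := mul_pos h4 h2
      linarith [ht.2]
  -- the derivative
  have hder : ∀ t ∈ Set.Icc (0 : ℝ) 1, HasDerivWithinAt
      (fun t : ℝ => Df r (fun j => Real.log (1 + t * (G j - 1))) n)
      (Df r (fun j => (G j - 1) / (1 + t * (G j - 1))) n) (Set.Icc 0 1) t := by
    intro t ht
    unfold Df
    refine HasDerivWithinAt.fun_sum fun i hi => ?_
    have hi' : i ≤ r := Nat.lt_succ_iff.1 (Finset.mem_range.1 hi)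
    have h2 := hpt t ht i hi'
    have h3 : HasDerivAt (fun t : ℝ => 1 + t * (G (n + i) - 1)) (G (n + i) - 1) t := by
      have h4 := ((hasDerivAt_id t).mul_const (G (n + i) - 1)).const_add 1
      simpa using h4
    exact ((h3.log h2.ne').const_mul ((-1 : ℝ) ^ i * (r.choose i : ℝ))).hasDerivWithinAt
  have hbound : ∀ t ∈ Set.Icc (0 : ℝ) 1,
      ‖Df r (fun j => (G j - 1) / (1 + t * (G j - 1))) n‖ ≤ C * ε ^ r := by
    intro t ht
    rw [Real.norm_eq_abs]
    have h2 := H (fun j => G j - 1) (fun j => 1 + t * (G j - 1)) n 1 ε h0 h1 zero_le_one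
      (fun j hj => hpt t ht j hj) ?_ ?_ ?_
    · rw [hGn, sub_self, mul_zero, add_zero, div_one, mul_one] at h2
      exact h2
    · intro j hj
      rw [hGn, sub_self, mul_zero, add_zero]
      have h3 := hGlow j hj
      have h4 : B' * (1 + t * (G (n + j) - 1)) = (1 - t) * B' + t * (B' * G (n + j)) := by ring
      rw [h4]
      have h5 : (1 - t) * 1 ≤ (1 - t) * B' := mul_le_mul_of_nonneg_left hB1 (by linarith [ht.2])
      have h6 : t * 1 ≤ t * (B' * G (n + j)) := mul_le_mul_of_nonneg_left h3 ht.1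
      linarith
    · intro s hs
      rcases Nat.eq_zero_or_pos s with hs0 | hs0
      · subst hs0
        rw [Df_zero, hGn, sub_self, abs_zero]
        positivity
      · rw [Df_sub s G (fun _ => 1), Df_const hs0, sub_zero, mul_one]
        exact hGd s 0 hs
    · intro s j hsj
      rw [hGn, sub_self, mul_zero, add_zero, mul_one]
      rcases Nat.eq_zero_or_pos s with hs0 | hs0
      · subst hs0
        have h3 := hpt t ht j (by omega)
        rw [Df_zero, abs_of_pos h3, pow_zero, mul_one]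
        have h4 := hGd 0 j hsj
        rw [Df_zero, pow_zero, mul_one] at h4
        have h5 := (abs_le.1 h4).2
        have h6 : 1 + t * (G (n + j) - 1) = (1 - t) * 1 + t * G (n + j) := by ring
        rw [h6]
        have h7 : (1 - t) * 1 ≤ (1 - t) * B' := mul_le_mul_of_nonneg_left hB1 (by linarith [ht.2])
        have h8 : t * G (n + j) ≤ t * B' := mul_le_mul_of_nonneg_left h5 ht.1
        linarith
      · have h3 : Df s (fun j => 1 + t * (G j - 1)) (n + j) = t * Df s G (n + j) := by
          rw [Df_add s (fun _ => 1) (fun j => t * (G j - 1)), Df_const hs0, zero_add,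
            Df_mul_left s t (fun j => G j - 1), Df_sub s G (fun _ => 1), Df_const hs0, sub_zero]
        rw [h3, abs_mul, abs_of_nonneg ht.1]
        have h4 := hGd s j hsj
        calc t * |Df s G (n + j)| ≤ 1 * |Df s G (n + j)| :=
              mul_le_mul_of_nonneg_right ht.2 (abs_nonneg _)
          _ = |Df s G (n + j)| := one_mul _
          _ ≤ _ := h4
  have hmv := (convex_Icc (0 : ℝ) 1).norm_image_sub_le_of_norm_hasDerivWithin_le hder hbound
    (Set.left_mem_Icc.2 zero_le_one) (Set.right_mem_Icc.2 zero_le_one)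
  have e0 : Df r (fun j => Real.log (1 + 0 * (G j - 1))) n = 0 := by
    simp only [zero_mul, add_zero, Real.log_one]
    exact Df_const hr 0 n
  have e1 : Df r (fun j => Real.log (1 + 1 * (G j - 1))) n = Df r (fun j => Real.log (f j)) n := by
    have e2 : Df r (fun j => Real.log (1 + 1 * (G j - 1))) n =
        Df r (fun j => Real.log (f j) - Real.log (f n)) n := by
      unfold Df
      refine Finset.sum_congr rfl fun i hi => ?_
      have hi' : i ≤ r := Nat.lt_succ_iff.1 (Finset.mem_range.1 hi)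
      have h2 := hpos i hi'
      rw [hG]
      simp only
      rw [one_mul, add_sub_cancel, Real.log_mul (inv_pos.2 hfn).ne' h2.ne', Real.log_inv]
      ring
    rw [e2, Df_sub r (fun j => Real.log (f j)) (fun _ => Real.log (f n)), Df_const hr, sub_zero]
  rw [e0, e1, sub_zero, sub_zero, norm_one, mul_one, Real.norm_eq_abs] at hmv
  exact hmv

end Pool.Agent.N507.EZ
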